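import Pool.Agent.H55.Cotype

set_option autoImplicit false

open Set Filter Topology
open scoped NNReal

namespace Pool.Agent.Results.MP_601622_gt.NoEmbedding

/-- A self-map is contracting if it is Lipschitz with a constant below `1`. -/
def Contracting {K : Type} [MetricSpace K] (f : K → K) : Prop :=
  ∃ L : ℝ≥0, L < 1 ∧ LipschitzWith L f

/-- `(K, F)` is a metric fractal. -/
def IsMetricFractal (K : Type) [MetricSpace K] (F : Set (K → K)) : Prop :=
  CompactSpace K ∧ F.Finite ∧ (∀ f ∈ F, Contracting f) ∧ ⋃ f ∈ F, range f = univ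

/-- Two-sided Hölder bounds with the same exponent. -/
def EquiHolder {K Y : Type} [MetricSpace K] [MetricSpace Y] (h : K → Y) : Prop :=
  ∃ c C α : ℝ, 0 < c ∧ 0 < C ∧ 0 < α ∧
    ∀ x y, c * dist x y ^ α ≤ dist (h x) (h y) ∧ dist (h x) (h y) ≤ C * dist x y ^ α

section aux

/-- half period -/
def LL (m : ℕ) : ℕ := 2 * (m + 1)

/-- the discrete torus -/
abbrev GG (m : ℕ) : Type := Fin (LL m ^ 2) → ZMod (2 * LL m)

instance (m : ℕ) : NeZero (2 * LL m) := ⟨by unfold LL; omega⟩

def nu {m : ℕ} (g : GG m) : ℕ := Finset.univ.sup fun j => (g j).valMinAbs.natAbs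

lemma nu_le {m : ℕ} (g : GG m) : nu g ≤ LL m := by
  refine Finset.sup_le fun j _ => ?_
  have := ZMod.natAbs_valMinAbs_le (g j)
  omega

lemma nu_neg {m : ℕ} (g : GG m) : nu (-g) = nu g := by
  simp [nu, ZMod.natAbs_valMinAbs_neg]

lemma nu_zero {m : ℕ} : nu (0 : GG m) = 0 := by simp [nu]

lemma nu_add {m : ℕ} (g h : GG m) : nu (g + h) ≤ nu g + nu h := by
  refine Finset.sup_le fun j _ => ?_
  refine (ZMod.natAbs_valMinAbs_add_le _ _).trans ((Int.natAbs_add_le _ _).trans ?_)
  exact add_le_add (Finset.le_sup (f := fun j => (g j).valMinAbs.natAbs) (Finset.mem_univ j))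
    (Finset.le_sup (f := fun j => (h j).valMinAbs.natAbs) (Finset.mem_univ j))

lemma nu_single {m : ℕ} (j : Fin (LL m ^ 2)) :
    LL m ≤ nu (Pi.single j (LL m : ZMod (2 * LL m)) : GG m) := by
  refine le_trans ?_ (Finset.le_sup (f := fun i =>
    ((Pi.single j (LL m : ZMod (2 * LL m)) : GG m) i).valMinAbs.natAbs) (Finset.mem_univ j))
  simp only [Pi.single_eq_same]
  rw [ZMod.valMinAbs_natCast_of_le_half (by omega)]
  simp

lemma nu_sign {m : ℕ} (ε : Fin (LL m ^ 2) → Bool) :
    nu ((fun j => if ε j then 1 else -1) : GG m) ≤ 1 := by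
  refine Finset.sup_le fun j _ => ?_
  have h : (1 : ZMod (2 * LL m)).valMinAbs.natAbs = 1 := by
    have := ZMod.valMinAbs_natCast_of_le_half (n := 2 * LL m) (a := 1) (by unfold LL; omega)
    simp only [Nat.cast_one] at this
    rw [this]; rfl
  dsimp only
  split_ifs
  · exact h.le
  · rw [ZMod.natAbs_valMinAbs_neg]; exact h.le

noncomputable def pr (m i : ℕ) : GG m :=
  if h : i < Fintype.card (GG m) then (Fintype.equivFin (GG m)).symm ⟨i, h⟩ else 0

lemma pr_equiv (m : ℕ) (g : GG m) : pr m (Fintype.equivFin (GG m) g) = g := by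
  unfold pr
  rw [dif_pos (Fintype.equivFin (GG m) g).2]
  exact (Fintype.equivFin (GG m)).symm_apply_apply g

noncomputable def DD (m i j : ℕ) : ℕ := max (nu (pr m i - pr m j)) (if i = j then 0 else 1)

lemma DD_self (m i : ℕ) : DD m i i = 0 := by simp [DD, nu_zero]

lemma DD_comm (m i j : ℕ) : DD m i j = DD m j i := by
  unfold DD
  rw [← nu_neg, neg_sub]
  simp only [eq_comm]

lemma DD_le (m i j : ℕ) : DD m i j ≤ LL m :=
  max_le (nu_le _) (by split_ifs <;> unfold LL <;> omega)

lemma DD_ge {m i j : ℕ} (h : i ≠ j) : 1 ≤ DD m i j := le_max_of_le_right (by simp [h])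

lemma DD_tri (m i j k : ℕ) : DD m i k ≤ DD m i j + DD m j k := by
  refine max_le ?_ ?_
  · have := nu_add (pr m i - pr m j) (pr m j - pr m k)
    rw [sub_add_sub_cancel] at this
    exact this.trans (add_le_add (le_max_left _ _) (le_max_left _ _))
  · split_ifs with h
    · exact Nat.zero_le _
    · by_cases h' : i = j
      · have := DD_ge (m := m) (show j ≠ k from h' ▸ h); omega
      · have := DD_ge (m := m) h'; omega

noncomputable def rho : ℕ → ℝ
  | 0 => 1
  | n + 1 => rho n / LL n.unpair.1 / 2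

lemma LL_ge (m : ℕ) : (1 : ℝ) ≤ LL m := by
  have : 1 ≤ LL m := by unfold LL; omega
  exact_mod_cast this

lemma rho_pos (n : ℕ) : 0 < rho n := by
  induction n with
  | zero => simp [rho]
  | succ n ih => have := LL_ge n.unpair.1; unfold rho; positivity

lemma rho_succ_le (n : ℕ) : rho (n + 1) ≤ rho n / 2 := by
  have := div_le_self (rho_pos n).le (LL_ge n.unpair.1)
  rw [rho]
  linarith

lemma rho_le (n : ℕ) : rho n ≤ (1 / 2) ^ n := by
  induction n with
  | zero => simp [rho]
  | succ n ih => rw [pow_succ]; linarith [rho_succ_le n]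

/-- the space -/
structure KK where
  lev : ℕ
  idx : ℕ
  lt : idx < 2 ^ lev

noncomputable def rr (n : ℕ) : ℝ := if n = 0 then 0 else rho n

lemma rr_nonneg (n : ℕ) : 0 ≤ rr n := by
  unfold rr; split_ifs
  · exact le_rfl
  · exact (rho_pos n).le

noncomputable def ee (n i j : ℕ) : ℝ := rho n / LL n.unpair.1 * DD n.unpair.1 i j

lemma uu_pos (n : ℕ) : 0 < rho n / LL n.unpair.1 :=
  div_pos (rho_pos n) (by linarith [LL_ge n.unpair.1])

lemma KK.eq_of {x y : KK} (h1 : x.lev = y.lev) (h2 : x.idx = y.idx) : x = y := by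
  cases x; cases y; simp_all

lemma ee_le (x y : KK) (h : x.lev = y.lev) : ee x.lev x.idx y.idx ≤ rr x.lev := by
  unfold rr
  split_ifs with h0
  · have a := x.lt
    have b := y.lt
    rw [← h] at b
    rw [h0] at a b
    have : x.idx = y.idx := by omega
    rw [this, ee, DD_self]; simp
  · have h1 : (DD x.lev.unpair.1 x.idx y.idx : ℝ) ≤ LL x.lev.unpair.1 := by
      exact_mod_cast DD_le _ _ _
    have := mul_le_mul_of_nonneg_left h1 (uu_pos x.lev).le
    rw [div_mul_cancel₀ _ (by linarith [LL_ge x.lev.unpair.1])] at this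
    exact this

noncomputable def dd (x y : KK) : ℝ :=
  if x.lev = y.lev then ee x.lev x.idx y.idx else max (rr x.lev) (rr y.lev)

lemma dd_le (x y : KK) : dd x y ≤ max (rr x.lev) (rr y.lev) := by
  unfold dd
  split_ifs with h
  · exact (ee_le x y h).trans (le_max_left _ _)
  · exact le_rfl

lemma dd_nonneg (x y : KK) : 0 ≤ dd x y := by
  unfold dd
  split_ifs with h
  · exact mul_nonneg (uu_pos _).le (Nat.cast_nonneg _)
  · exact (rr_nonneg _).trans (le_max_left _ _)

lemma dd_ge {x y : KK} (h : x.lev = y.lev) (hne : x ≠ y) : 2 * rho (x.lev + 1) ≤ dd x y := by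
  unfold dd
  rw [if_pos h]
  have h1 : (1 : ℝ) ≤ DD x.lev.unpair.1 x.idx y.idx := by
    exact_mod_cast DD_ge fun e => hne (KK.eq_of h e)
  have := mul_le_mul_of_nonneg_left h1 (uu_pos x.lev).le
  rw [ee, rho]
  linarith

noncomputable instance : MetricSpace KK where
  dist := dd
  dist_self x := by simp [dd, ee, DD_self]
  dist_comm x y := by
    unfold dd
    by_cases h : x.lev = y.lev
    · rw [if_pos h, if_pos h.symm, ee, ee, DD_comm, h]
    · rw [if_neg h, if_neg (Ne.symm h), max_comm]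
  dist_triangle x y z := by
    by_cases h1 : x.lev = y.lev <;> by_cases h2 : y.lev = z.lev
    · unfold dd
      rw [if_pos h1, if_pos h2, if_pos (h1.trans h2), ← h1]
      unfold ee
      rw [← mul_add]
      apply mul_le_mul_of_nonneg_left _ (uu_pos _).le
      exact_mod_cast DD_tri _ _ _ _
    · have : dd x z = dd y z := by
        unfold dd; rw [if_neg h2, if_neg (h1 ▸ h2), h1]
      linarith [dd_nonneg x y]
    · have : dd x z = dd x y := by
        unfold dd; rw [if_neg h1, if_neg (h2 ▸ h1), h2]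
      linarith [dd_nonneg y z]
    · have a1 : dd x y = max (rr x.lev) (rr y.lev) := if_neg h1
      have a2 : dd y z = max (rr y.lev) (rr z.lev) := if_neg h2
      refine (dd_le x z).trans (max_le ?_ ?_)
      · linarith [le_max_left (rr x.lev) (rr y.lev), dd_nonneg y z]
      · linarith [le_max_right (rr y.lev) (rr z.lev), dd_nonneg x y]
  eq_of_dist_eq_zero {x y} h := by
    by_contra hne
    by_cases h1 : x.lev = y.lev
    · linarith [dd_ge h1 hne, rho_pos (x.lev + 1)]
    · have a1 : dd x y = max (rr x.lev) (rr y.lev) := if_neg h1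
      have b1 := le_max_left (rr x.lev) (rr y.lev)
      have b2 := le_max_right (rr x.lev) (rr y.lev)
      by_cases h0 : x.lev = 0
      · have : rr y.lev = rho y.lev := if_neg fun e => h1 (h0.trans e.symm)
        linarith [rho_pos y.lev]
      · have : rr x.lev = rho x.lev := if_neg h0
        linarith [rho_pos x.lev]

lemma dist_def (x y : KK) : dist x y = dd x y := rfl

def pt0 : KK := ⟨0, 0, by norm_num⟩

lemma compact_KK : CompactSpace KK := by
  have h : Tendsto (id : KK → KK) cofinite (𝓝 pt0) := by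
    rw [Metric.tendsto_nhds]
    intro ε hε
    obtain ⟨N, hN⟩ := exists_pow_lt_of_lt_one hε (by norm_num : (1 / 2 : ℝ) < 1)
    rw [eventually_cofinite]
    have hf : ((Iio N) ×ˢ (Iio (2 ^ N)) : Set (ℕ × ℕ)).Finite := (finite_Iio _).prod (finite_Iio _)
    refine (hf.preimage (f := fun x : KK => (x.lev, x.idx)) fun x _ y _ e =>
      KK.eq_of (Prod.mk.inj e).1 (Prod.mk.inj e).2).subset fun x hx => ?_
    have h1 : x.lev < N := by
      by_contra hc
      push Not at hc
      apply hx
      refine lt_of_le_of_lt (dd_le x pt0) (max_lt ?_ (by simpa [rr, pt0] using hε))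
      unfold rr
      split_ifs
      · exact hε
      · exact lt_of_le_of_lt ((rho_le _).trans
          (pow_le_pow_of_le_one (by norm_num) (by norm_num) hc)) hN
    exact ⟨h1, x.lt.trans (Nat.pow_lt_pow_right (by norm_num) h1)⟩
  have := h.isCompact_insert_range_of_cofinite
  rw [range_id, insert_eq_of_mem (mem_univ _)] at this
  exact ⟨this⟩

def step (b : Fin 2) (x : KK) : KK :=
  if x.lev = 0 then pt0 else ⟨x.lev + 1, 2 * x.idx + b, by
    have := x.lt; have := b.2; rw [pow_succ]; omega⟩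

lemma rr_step (b : Fin 2) (x : KK) :
    rr (step b x).lev ≤ rho (x.lev + 1) ∧ rr (step b x).lev ≤ rr x.lev / 2 := by
  unfold step
  split_ifs with h
  · simp [rr, pt0, h, (rho_pos _).le]
  · simp only [rr, h, if_false, Nat.add_eq_zero_iff, one_ne_zero, and_false]
    exact ⟨le_rfl, rho_succ_le _⟩

lemma step_contr (b : Fin 2) : Contracting (step b) := by
  refine ⟨1 / 2, by norm_num, LipschitzWith.of_dist_le_mul fun x y => ?_⟩
  by_cases hne : x = y
  · simp [hne]
  have e : ((1 / 2 : ℝ≥0) : ℝ) = 1 / 2 := by norm_num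
  rw [e, dist_def, dist_def]
  refine (dd_le _ _).trans ?_
  by_cases h1 : x.lev = y.lev
  · have := dd_ge h1 hne
    refine max_le (by linarith [(rr_step b x).1]) ?_
    have := (rr_step b y).1
    rw [← h1] at this
    linarith
  · have a1 : dd x y = max (rr x.lev) (rr y.lev) := if_neg h1
    refine max_le ?_ ?_
    · linarith [(rr_step b x).2, le_max_left (rr x.lev) (rr y.lev)]
    · linarith [(rr_step b y).2, le_max_right (rr x.lev) (rr y.lev)]

def cst (b : Fin 2) : KK → KK := fun _ => ⟨1, b, by have := b.2; omega⟩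

lemma fractal : IsMetricFractal KK (range step ∪ range cst) := by
  refine ⟨compact_KK, (finite_range _).union (finite_range _), ?_, ?_⟩
  · rintro f (⟨b, rfl⟩ | ⟨b, rfl⟩)
    · exact step_contr b
    · exact ⟨0, by norm_num, LipschitzWith.const _⟩
  · rw [eq_univ_iff_forall]
    rintro ⟨n, i, hi⟩
    simp only [mem_iUnion]
    rcases n with _ | _ | n
    · refine ⟨step 0, Or.inl ⟨0, rfl⟩, pt0, KK.eq_of rfl ?_⟩
      simp only [step, pt0, if_true]
      omega
    · exact ⟨cst ⟨i, by omega⟩, Or.inr ⟨_, rfl⟩, pt0, rfl⟩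
    · refine ⟨step ⟨i % 2, by omega⟩, Or.inl ⟨_, rfl⟩,
        ⟨n + 1, i / 2, by rw [pow_succ] at hi; omega⟩, KK.eq_of ?_ ?_⟩
      · simp [step]
      · simp only [step, Nat.add_eq_zero_iff, one_ne_zero, and_false, if_false]
        omega

lemma exists_copy (m : ℕ) : ∃ (s : GG m → KK) (u : ℝ), 0 < u ∧ ∀ g g' : GG m,
    u * nu (g - g') ≤ dist (s g) (s g') ∧ (nu (g - g') ≤ 1 → dist (s g) (s g') ≤ u) := by
  set n := Nat.pair m (Fintype.card (GG m)) with hn
  have h1 : n.unpair.1 = m := by simp [hn]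
  have h2 : Fintype.card (GG m) < 2 ^ n :=
    Nat.lt_two_pow_self.trans_le (Nat.pow_le_pow_right (by norm_num) (Nat.right_le_pair _ _))
  refine ⟨fun g => ⟨n, Fintype.equivFin (GG m) g, (Fintype.equivFin (GG m) g).2.trans h2⟩,
    _, uu_pos n, fun g g' => ?_⟩
  simp only [dist_def, dd, if_true, ee]
  have e : DD n.unpair.1 (Fintype.equivFin (GG m) g) (Fintype.equivFin (GG m) g') =
      DD m (Fintype.equivFin (GG m) g) (Fintype.equivFin (GG m) g') := by rw [h1]
  rw [e]
  unfold DD
  rw [pr_equiv, pr_equiv]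
  constructor
  · apply mul_le_mul_of_nonneg_left _ (uu_pos n).le
    exact_mod_cast le_max_left _ _
  · intro h
    apply mul_le_of_le_one_right (uu_pos n).le
    exact_mod_cast max_le h (by split_ifs <;> omega)

lemma no_embed {H : Type} [NormedAddCommGroup H] [InnerProductSpace ℝ H] (h : KK → H) :
    ¬ EquiHolder h := by
  rintro ⟨c, C, α, c0, C0, a0, hh⟩
  have key : ∀ m, (c * (LL m : ℝ) ^ α) ^ 2 ≤ 3 * C ^ 2 := by
    intro m
    obtain ⟨s, u, u0, hs⟩ := exists_copy m
    have hL : Even (LL m) := ⟨m + 1, by unfold LL; ring⟩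
    have L1 := LL_ge m
    have h1 := Pool.Agent.H55.Cotype.cotype (M := 2 * LL m) hL (by unfold LL; omega)
      (fun g => h (s g))
    have h2 : ∀ (j : Fin (LL m ^ 2)) (x : GG m), (c * (u * LL m) ^ α) ^ 2 ≤
        ‖h (s (x + Pi.single j (LL m : ZMod (2 * LL m)))) - h (s x)‖ ^ 2 := by
      intro j x
      apply pow_le_pow_left₀ (by positivity)
      rw [← dist_eq_norm]
      refine le_trans (mul_le_mul_of_nonneg_left (Real.rpow_le_rpow (by positivity) ?_ a0.le)
        c0.le) (hh _ _).1
      refine le_trans ?_ (hs _ _).1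
      rw [add_sub_cancel_left]
      apply mul_le_mul_of_nonneg_left _ u0.le
      exact_mod_cast nu_single j
    have h3 : ∀ (ε : Fin (LL m ^ 2) → Bool) (x : GG m),
        ‖h (s (x + fun j => if ε j then 1 else -1)) - h (s x)‖ ^ 2 ≤ (C * u ^ α) ^ 2 := by
      intro ε x
      apply pow_le_pow_left₀ (norm_nonneg _)
      rw [← dist_eq_norm]
      refine (hh _ _).2.trans (mul_le_mul_of_nonneg_left
        (Real.rpow_le_rpow dist_nonneg ((hs _ _).2 ?_) a0.le) C0.le)
      rw [add_sub_cancel_left]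
      exact nu_sign ε
    have h4 := Finset.sum_le_sum (s := Finset.univ) fun j _ =>
      Finset.sum_le_sum (s := Finset.univ) fun x _ => h2 j x
    have h5 := Finset.sum_le_sum (s := Finset.univ) fun ε _ =>
      Finset.sum_le_sum (s := Finset.univ) fun x _ => h3 ε x
    have h6 := h4.trans (h1.trans (mul_le_mul_of_nonneg_left h5 (by positivity)))
    simp only [Finset.sum_const, Finset.card_univ, nsmul_eq_mul, Fintype.card_fin] at h6
    rw [Fintype.card_fun (α := Fin (LL m ^ 2)) (β := Bool), Fintype.card_bool,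
      Fintype.card_fin] at h6
    have hc : (0 : ℝ) < Fintype.card (GG m) := by exact_mod_cast Fintype.card_pos
    have hu : 0 < u ^ α := by positivity
    rw [Real.mul_rpow u0.le (by positivity)] at h6
    push_cast at h6
    have e1 : (3 * (LL m : ℝ) ^ 2 / 2 ^ (LL m ^ 2)) *
        (2 ^ (LL m ^ 2) * (Fintype.card (GG m) * (C * u ^ α) ^ 2)) =
        ((LL m : ℝ) ^ 2 * Fintype.card (GG m) * (u ^ α) ^ 2) * (3 * C ^ 2) := by
      field_simp
    have e2 : (LL m : ℝ) ^ 2 * (Fintype.card (GG m) * (c * (u ^ α * (LL m : ℝ) ^ α)) ^ 2) =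
        ((LL m : ℝ) ^ 2 * Fintype.card (GG m) * (u ^ α) ^ 2) * (c * (LL m : ℝ) ^ α) ^ 2 := by
      ring
    rw [e1, e2] at h6
    exact le_of_mul_le_mul_left h6 (by positivity)
  have t1 : Tendsto (fun m : ℕ => (m : ℝ) ^ α) atTop atTop :=
    (tendsto_rpow_atTop a0).comp tendsto_natCast_atTop_atTop
  obtain ⟨m, hm⟩ := (t1.eventually_gt_atTop (2 * C / c)).exists
  have h1 : (m : ℝ) ^ α ≤ (LL m : ℝ) ^ α := by
    apply Real.rpow_le_rpow (by positivity) _ a0.le
    have : m ≤ LL m := by unfold LL; omega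
    exact_mod_cast this
  rw [div_lt_iff₀ c0] at hm
  have h2 : 2 * C ≤ c * (LL m : ℝ) ^ α := by nlinarith
  have h3 := pow_le_pow_left₀ (by positivity) h2 2
  nlinarith [key m]

end aux

/-- There is a metric fractal whose underlying space admits no equi-Hölder map into `ℓ₂`. -/
theorem result : ∃ (K : Type) (_ : MetricSpace K) (F : Set (K → K)), Nonempty K ∧
    IsMetricFractal K F ∧ ∀ h : K → lp (fun _ : ℕ => ℝ) 2, ¬ EquiHolder h :=
  ⟨KK, inferInstance, _, ⟨pt0⟩, fractal, fun h => no_embed h⟩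

end Pool.Agent.Results.MP_601622_gt.NoEmbedding
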